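import Mathlib

/-!
# An ir-edge-critical graph that is not gamma-edge-critical

A graph on ten vertices with `ir = γ = 3`.
-/

set_option autoImplicit false

namespace Pool.Agent.Results.MP_7f565b_co.IrCritical

/-- `w` lies in the closed neighbourhood of `s`. -/
def InClosedNbhd {V : Type*} (G : SimpleGraph V) (s w : V) : Prop := w = s ∨ G.Adj s w

/-- `D` is a dominating set. -/
def IsDominating {V : Type*} (G : SimpleGraph V) (D : Finset V) : Prop :=
  ∀ v, ∃ u ∈ D, InClosedNbhd G u v

/-- The domination number. -/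
noncomputable def domNum {V : Type*} (G : SimpleGraph V) : ℕ :=
  sInf {m | ∃ D : Finset V, IsDominating G D ∧ D.card = m}

/-- `S` is irredundant: every `s ∈ S` has a private neighbour, i.e. a vertex of `N[s]` lying in
no `N[t]` with `t ∈ S`, `t ≠ s`. -/
def IsIrredundant {V : Type*} (G : SimpleGraph V) (S : Finset V) : Prop :=
  ∀ s ∈ S, ∃ w, InClosedNbhd G s w ∧ ∀ t ∈ S, t ≠ s → ¬ InClosedNbhd G t w

/-- The lower irredundance number: the least size of a maximal irredundant set. -/
noncomputable def irNum {V : Type*} (G : SimpleGraph V) : ℕ :=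
  sInf {m | ∃ S : Finset V, Maximal (IsIrredundant G) S ∧ S.card = m}

/-- The graph `G + uv` obtained from `G` by adding the edge `uv`. -/
def addEdge {V : Type*} (G : SimpleGraph V) (u v : V) : SimpleGraph V :=
  SimpleGraph.fromRel (fun a b => G.Adj a b ∨ (a = u ∧ b = v))

/-- `G` is `π`-edge-critical: adding any missing edge strictly lowers `π`. -/
def IsEdgeCritical {V : Type*} (π : SimpleGraph V → ℕ) (G : SimpleGraph V) : Prop :=
  ∀ u v, u ≠ v → ¬ G.Adj u v → π (addEdge G u v) < π G

/-- The graph, with edges 08, 09, 12, 17, 19, 27, 28, 34, 35, 36, 39, 45, 46, 49, 56, 58, 67, 78,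
79, 89; the adjacency matrix is written as a binary number. -/
def G : SimpleGraph (Fin 10) :=
  SimpleGraph.fromRel (fun a b => Nat.testBit 509612788474474102510685131520 (10 * a.val + b.val) = true)

instance : DecidableRel G.Adj := by
  intro a b
  unfold G
  rw [SimpleGraph.fromRel_adj]
  infer_instance

instance (H : SimpleGraph (Fin 10)) [DecidableRel H.Adj] (u v : Fin 10) :
    DecidableRel (addEdge H u v).Adj := by
  intro a b
  unfold addEdge
  rw [SimpleGraph.fromRel_adj]
  infer_instance

instance (H : SimpleGraph (Fin 10)) [DecidableRel H.Adj] (s w : Fin 10) :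
    Decidable (InClosedNbhd H s w) := by
  unfold InClosedNbhd
  infer_instance

instance (H : SimpleGraph (Fin 10)) [DecidableRel H.Adj] (S : Finset (Fin 10)) :
    Decidable (IsDominating H S) := by
  unfold IsDominating
  infer_instance

instance (H : SimpleGraph (Fin 10)) [DecidableRel H.Adj] (S : Finset (Fin 10)) :
    Decidable (IsIrredundant H S) := by
  unfold IsIrredundant
  infer_instance

lemma irr_mono {V : Type*} (H : SimpleGraph V) {S T : Finset V} (hST : S ⊆ T)
    (hT : IsIrredundant H T) : IsIrredundant H S := by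
  intro s hs
  obtain ⟨w, hw, h⟩ := hT s (hST hs)
  exact ⟨w, hw, fun t ht => h t (hST ht)⟩

lemma maximal_of (H : SimpleGraph (Fin 10)) (S : Finset (Fin 10)) (hS : IsIrredundant H S)
    (h : ∀ v, v ∉ S → ¬ IsIrredundant H (insert v S)) : Maximal (IsIrredundant H) S := by
  refine ⟨hS, ?_⟩
  intro T hT hST
  by_contra hc
  obtain ⟨v, hvT, hvS⟩ := Set.not_subset.1 (fun hh : (T : Set (Fin 10)) ⊆ S => hc
    (fun x hx => Finset.mem_coe.1 (hh (Finset.mem_coe.2 hx))))
  refine h v hvS (irr_mono H ?_ hT)
  exact Finset.insert_subset hvT hST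

lemma low : ∀ a b : Fin 10, ¬ IsIrredundant G {a, b} ∨
    ∃ v, v ∉ ({a, b} : Finset (Fin 10)) ∧ IsIrredundant G (insert v {a, b}) := by
  decide +kernel

lemma cases_two (S : Finset (Fin 10)) (h : S.card ≤ 2) : S = ∅ ∨ ∃ a b, S = {a, b} := by
  rcases Nat.lt_or_ge S.card 1 with h1 | h1
  · left; exact Finset.card_eq_zero.1 (by omega)
  · right
    rcases Nat.lt_or_ge S.card 2 with h2 | h2
    · obtain ⟨a, rfl⟩ := Finset.card_eq_one.1 (show S.card = 1 by omega)
      exact ⟨a, a, by simp⟩
    · obtain ⟨a, b, _, rfl⟩ := Finset.card_eq_two.1 (show S.card = 2 by omega)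
      exact ⟨a, b, rfl⟩

lemma three_le {S : Finset (Fin 10)} (hS : Maximal (IsIrredundant G) S) : 3 ≤ S.card := by
  by_contra hc
  rcases cases_two S (by omega) with rfl | ⟨a, b, rfl⟩
  · have h : IsIrredundant G {0} := by decide +kernel
    exact absurd (hS.2 h (Finset.empty_subset _) (Finset.mem_singleton_self 0))
      (Finset.notMem_empty 0)
  · rcases low a b with h | ⟨v, hv, h⟩
    · exact h hS.1
    · exact hv (hS.2 h (Finset.subset_insert v _) (Finset.mem_insert_self v _))

lemma irG : 3 ≤ irNum G := by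
  have hne : {m | ∃ S : Finset (Fin 10), Maximal (IsIrredundant G) S ∧ S.card = m}.Nonempty :=
    ⟨3, {0, 1, 3}, maximal_of G _ (by decide +kernel) (by decide +kernel), by decide⟩
  obtain ⟨S, hS, hc⟩ := Nat.sInf_mem hne
  unfold irNum
  rw [← hc]
  exact three_le hS

/-- Witnesses, coded in decimal: for each missing edge `uv` a maximal irredundant set `{a, b}`
of `G + uv`. -/
def code : ℕ :=
  21630000930000000000210064630083000000000053545300007321210000000000968676630053000000009585510064540000000094844200635300000000938332930000969594930000320083008685848300005100007376514232325100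

/-- The first witness. -/
def wa (u v : Fin 10) : Fin 10 := Fin.ofNat 10 (code / 100 ^ (10 * u.val + v.val))

/-- The second witness. -/
def wb (u v : Fin 10) : Fin 10 := Fin.ofNat 10 (code / 100 ^ (10 * u.val + v.val) / 10)

lemma crit_fin : ∀ u v : Fin 10, u ≠ v → ¬ G.Adj u v →
    IsIrredundant (addEdge G u v) {wa u v, wb u v} ∧
    ∀ w, w ∉ ({wa u v, wb u v} : Finset (Fin 10)) →
      ¬ IsIrredundant (addEdge G u v) (insert w {wa u v, wb u v}) := by
  decide +kernel

lemma ir_critical : IsEdgeCritical irNum G := by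
  intro u v huv hadj
  obtain ⟨h1, h2⟩ := crit_fin u v huv hadj
  have h3 : irNum (addEdge G u v) ≤ ({wa u v, wb u v} : Finset (Fin 10)).card :=
    Nat.sInf_le ⟨{wa u v, wb u v}, maximal_of _ _ h1 h2, rfl⟩
  have h4 : ({wa u v, wb u v} : Finset (Fin 10)).card ≤ 2 := Finset.card_le_two
  have := irG
  omega

lemma gam_pair : ∀ a b : Fin 10, ¬ IsDominating (addEdge G 3 7) {a, b} := by
  decide +kernel

lemma gam_fin (S : Finset (Fin 10)) (hS : IsDominating (addEdge G 3 7) S) : 3 ≤ S.card := by
  by_contra hc
  rcases cases_two S (by omega) with rfl | ⟨a, b, rfl⟩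
  · obtain ⟨u, hu, _⟩ := hS 0
    exact absurd hu (Finset.notMem_empty u)
  · exact gam_pair a b hS

lemma not_gamma_critical : ¬ IsEdgeCritical domNum G := by
  intro h
  have h1 := h 3 7 (by decide) (by decide +kernel)
  have h2 : domNum G ≤ 3 :=
    Nat.sInf_le ⟨({0, 1, 3} : Finset (Fin 10)), by decide +kernel, by decide⟩
  have hne : {m | ∃ D : Finset (Fin 10), IsDominating (addEdge G 3 7) D ∧
      D.card = m}.Nonempty := ⟨10, Finset.univ, by decide +kernel, by decide⟩
  obtain ⟨D, hD, hc⟩ := Nat.sInf_mem hne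
  have h3 := gam_fin D hD
  unfold domNum at h1 h2
  omega

/-- There is a graph that is ir-edge-critical but not gamma-edge-critical. -/
theorem result : ∃ H : SimpleGraph (Fin 10), IsEdgeCritical irNum H ∧ ¬ IsEdgeCritical domNum H :=
  ⟨G, ir_critical, not_gamma_critical⟩

end Pool.Agent.Results.MP_7f565b_co.IrCritical
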